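import Mathlib

/-!
# Continuous utility functions (Debreu)
-/

set_option autoImplicit false

namespace Pool.Agent.R492.Util

open Set Topology Filter

/-! ### Separating countable sets -/

theorem exists_sep {Y : Type} [Preorder Y] (htot : ∀ a b : Y, a ≤ b ∨ b ≤ a) (𝓑 : Set (Set Y))
    (h𝓑 : 𝓑.Countable) (ha : ∀ x y : Y, y < x → ∃ B ∈ 𝓑, y ∈ B ∧ B ⊆ Iio x)
    (hb : ∀ x y : Y, x < y → ∃ B ∈ 𝓑, y ∈ B ∧ B ⊆ Ioi x) :
    ∃ D : Set Y, D.Countable ∧ ∀ x y, x < y → ∃ d ∈ D, ∃ d' ∈ D, x ≤ d ∧ d < d' ∧ d' ≤ y := by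
  classical
  have hnl : ∀ a b : Y, ¬ a < b → b ≤ a := by
    intro a b h
    by_contra hc
    rcases htot a b with h1 | h1
    · exact h (lt_of_le_not_ge h1 hc)
    · exact hc h1
  rcases isEmpty_or_nonempty Y with hY | ⟨⟨y₀⟩⟩
  · exact ⟨∅, countable_empty, fun x => (hY.false x).elim⟩
  have he : ∀ p : Set Y × Set Y, ∃ z : Y, (p.1 ∩ p.2).Nonempty → z ∈ p.1 ∩ p.2 := by
    intro p
    by_cases h : (p.1 ∩ p.2).Nonempty
    · exact ⟨h.some, fun _ => h.some_mem⟩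
    · exact ⟨y₀, fun hc => absurd hc h⟩
  choose e he using he
  have hm : ∀ B : Set Y, ∃ z : Y, (∃ z ∈ B, ∀ w ∈ B, w ≤ z) → (z ∈ B ∧ ∀ w ∈ B, w ≤ z) := by
    intro B
    by_cases h : ∃ z ∈ B, ∀ w ∈ B, w ≤ z
    · obtain ⟨z, hz, hz'⟩ := h
      exact ⟨z, fun _ => ⟨hz, hz'⟩⟩
    · exact ⟨y₀, fun hc => absurd hc h⟩
  choose m hm using hm
  have hl : ∀ B : Set Y, ∃ z : Y, (∃ z ∈ B, ∀ w ∈ B, z ≤ w) → (z ∈ B ∧ ∀ w ∈ B, z ≤ w) := by
    intro B
    by_cases h : ∃ z ∈ B, ∀ w ∈ B, z ≤ w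
    · obtain ⟨z, hz, hz'⟩ := h
      exact ⟨z, fun _ => ⟨hz, hz'⟩⟩
    · exact ⟨y₀, fun hc => absurd hc h⟩
  choose l hl using hl
  refine ⟨(e '' (𝓑 ×ˢ 𝓑)) ∪ (m '' 𝓑) ∪ (l '' 𝓑),
    (((h𝓑.prod h𝓑).image e).union (h𝓑.image m)).union (h𝓑.image l), ?_⟩
  -- elements of intervals
  have hint : ∀ x z y : Y, x < z → z < y → ∃ d ∈ e '' (𝓑 ×ˢ 𝓑), x < d ∧ d < y := by
    intro x z y hxz hzy
    obtain ⟨B, hB, hzB, hBy⟩ := ha y z hzy
    obtain ⟨B', hB', hzB', hBx⟩ := hb x z hxz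
    have h1 := he (B, B') ⟨z, hzB, hzB'⟩
    exact ⟨e (B, B'), ⟨(B, B'), ⟨hB, hB'⟩, rfl⟩, hBx h1.2, hBy h1.1⟩
  -- left ends of jumps
  have hleft : ∀ x y : Y, x < y → (∀ z, x < z → ¬ z < y) → ∃ d ∈ m '' 𝓑, x ≤ d ∧ d ≤ x := by
    intro x y hxy hj
    obtain ⟨B, hB, hxB, hBy⟩ := ha y x hxy
    have h1 : ∀ w ∈ B, w ≤ x := fun w hw => hnl x w (fun h => hj w h (hBy hw))
    have h2 := hm B ⟨x, hxB, h1⟩
    exact ⟨m B, ⟨B, hB, rfl⟩, h2.2 x hxB, h1 _ h2.1⟩
  have hright : ∀ x y : Y, x < y → (∀ z, x < z → ¬ z < y) → ∃ d ∈ l '' 𝓑, y ≤ d ∧ d ≤ y := by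
    intro x y hxy hj
    obtain ⟨B, hB, hyB, hBx⟩ := hb x y hxy
    have h1 : ∀ w ∈ B, y ≤ w := fun w hw => hnl w y (fun h => hj w (hBx hw) h)
    have h2 := hl B ⟨y, hyB, h1⟩
    exact ⟨l B, ⟨B, hB, rfl⟩, h1 _ h2.1, h2.2 y hyB⟩
  intro x y hxy
  by_cases h : ∃ z, x < z ∧ z < y
  · obtain ⟨z, hxz, hzy⟩ := h
    obtain ⟨d', hd', hxd', hd'y⟩ := hint x z y hxz hzy
    by_cases h' : ∃ w, x < w ∧ w < d'
    · obtain ⟨w, hxw, hwd'⟩ := h'
      obtain ⟨d, hd, hxd, hdd'⟩ := hint x w d' hxw hwd'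
      exact ⟨d, Or.inl (Or.inl hd), d', Or.inl (Or.inl hd'), hxd.le, hdd', hd'y.le⟩
    · push Not at h'
      obtain ⟨d, hd, hxd, hdx⟩ := hleft x d' hxd' h'
      exact ⟨d, Or.inl (Or.inr hd), d', Or.inl (Or.inl hd'), hxd, lt_of_le_of_lt hdx hxd',
        hd'y.le⟩
  · push Not at h
    obtain ⟨d, hd, hxd, hdx⟩ := hleft x y hxy h
    obtain ⟨d', hd', hyd', hd'y⟩ := hright x y hxy h
    exact ⟨d, Or.inl (Or.inr hd), d', Or.inr hd', hxd,
      lt_of_le_of_lt hdx (lt_of_lt_of_le hxy hyd'), hd'y⟩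

/-! ### Monotone separation in linear orders -/

theorem exists_mono_sep {Q : Type} [LinearOrder Q] [TopologicalSpace Q] [OrderTopology Q] (a b : Q)
    (hab : a < b) : ∃ g : Q → ℝ, Continuous g ∧ Monotone g ∧ (∀ x, 0 ≤ g x ∧ g x ≤ 1) ∧
      (∀ x ≤ a, g x = 0) ∧ (∀ x, b ≤ x → g x = 1) := by
  have hdisj : Disjoint (Iic a) (Ici b) := by
    rw [Set.disjoint_left]
    intro x hx hx'
    exact absurd (lt_of_lt_of_le hab (le_trans hx' hx)) (lt_irrefl a)
  obtain ⟨f, hf0, hf1, hf⟩ := exists_continuous_zero_one_of_isClosed isClosed_Iic isClosed_Ici hdisj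
  have hbdd : ∀ x : Q, BddAbove (f '' Iic x) := fun x => ⟨1, by
    rintro _ ⟨y, _, rfl⟩; exact (hf y).2⟩
  have hne : ∀ x : Q, (f '' Iic x).Nonempty := fun x => ⟨f x, x, le_rfl, rfl⟩
  set g : Q → ℝ := fun x => sSup (f '' Iic x) with hg
  have hfg : ∀ x, f x ≤ g x := fun x => le_csSup (hbdd x) ⟨x, le_rfl, rfl⟩
  have hmono : Monotone g := by
    intro x y hxy
    exact csSup_le_csSup (hbdd y) (hne x) (image_mono (Iic_subset_Iic.mpr hxy))
  have hle1 : ∀ x, g x ≤ 1 := fun x => csSup_le (hne x) (by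
    rintro _ ⟨y, _, rfl⟩; exact (hf y).2)
  have h0le : ∀ x, 0 ≤ g x := fun x => (hf x).1.trans (hfg x)
  refine ⟨g, ?_, hmono, fun x => ⟨h0le x, hle1 x⟩, ?_, ?_⟩
  · rw [continuous_iff_continuousAt]
    intro x
    rw [Metric.continuousAt_iff']
    intro ε hε
    have hV : {y | |f y - f x| < ε / 3} ∈ 𝓝 x := by
      have := Metric.continuousAt_iff'.mp (f.continuous.continuousAt (x := x)) (ε / 3) (by linarith)
      simp only [Real.dist_eq] at this
      exact this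
    have hO := ordConnectedComponent_mem_nhds.mpr hV
    filter_upwards [hO] with y hy
    rw [mem_ordConnectedComponent] at hy
    rw [Real.dist_eq]
    rcases le_total x y with hxy | hxy
    · rw [uIcc_of_le hxy] at hy
      have h1 : g y ≤ g x + ε / 3 := by
        apply csSup_le (hne y)
        rintro _ ⟨z, hz, rfl⟩
        rcases le_total z x with hzx | hzx
        · have : f z ≤ g x := le_csSup (hbdd x) ⟨z, hzx, rfl⟩
          linarith
        · have h2 := hy ⟨hzx, hz⟩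
          rw [mem_ofPred_eq, abs_lt] at h2
          have := hfg x
          linarith [h2.2]
      have h2 := hmono hxy
      rw [abs_of_nonneg (by linarith)]
      linarith
    · rw [uIcc_of_ge hxy] at hy
      have h3 := hy ⟨le_rfl, hxy⟩
      rw [mem_ofPred_eq, abs_lt] at h3
      have h1 : g x ≤ g y + 2 * (ε / 3) := by
        apply csSup_le (hne x)
        rintro _ ⟨z, hz, rfl⟩
        rcases le_total z y with hzy | hzy
        · have : f z ≤ g y := le_csSup (hbdd y) ⟨z, hzy, rfl⟩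
          linarith
        · have h2 := hy ⟨hzy, hz⟩
          rw [mem_ofPred_eq, abs_lt] at h2
          have := hfg y
          linarith [h2.2, h3.1]
      have h2 := hmono hxy
      rw [abs_sub_comm, abs_of_nonneg (by linarith)]
      linarith
  · intro x hx
    apply le_antisymm _ (h0le x)
    apply csSup_le (hne x)
    rintro _ ⟨z, hz, rfl⟩
    exact (hf0 (le_trans hz hx)).le
  · intro x hx
    apply le_antisymm (hle1 x)
    calc (1 : ℝ) = f b := (hf1 (le_refl b)).symm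
      _ ≤ g x := le_csSup (hbdd x) ⟨b, hx, rfl⟩

theorem exists_strictMono {Q : Type} [LinearOrder Q] [TopologicalSpace Q] [OrderTopology Q]
    (D : Set Q) (hD : D.Countable)
    (hsep : ∀ x y, x < y → ∃ d ∈ D, ∃ d' ∈ D, x ≤ d ∧ d < d' ∧ d' ≤ y) :
    ∃ u : Q → ℝ, Continuous u ∧ StrictMono u := by
  classical
  set S : Set (Q × Q) := (D ×ˢ D) ∩ {p | p.1 < p.2} with hS
  have hSc : S.Countable := (hD.prod hD).mono inter_subset_left
  rcases S.eq_empty_or_nonempty with hemp | hne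
  · refine ⟨fun _ => 0, continuous_const, fun x y hxy => ?_⟩
    obtain ⟨d, hd, d', hd', -, h, -⟩ := hsep x y hxy
    have : (d, d') ∈ S := ⟨⟨hd, hd'⟩, h⟩
    rw [hemp] at this
    exact absurd this (notMem_empty _)
  obtain ⟨p, hp⟩ := hSc.exists_eq_range hne
  have hpS : ∀ n, (p n).1 < (p n).2 := fun n => by
    have : p n ∈ S := by rw [hp]; exact ⟨n, rfl⟩
    exact this.2
  choose g hgc hgm hg01 hg0 hg1 using fun n => exists_mono_sep (p n).1 (p n).2 (hpS n)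
  have hsum : Summable fun n : ℕ => (1 / 2 : ℝ) ^ n :=
    summable_geometric_of_lt_one (by norm_num) (by norm_num)
  have hsumx : ∀ x, Summable fun n : ℕ => (1 / 2 : ℝ) ^ n * g n x := fun x =>
    Summable.of_nonneg_of_le (fun n => mul_nonneg (by positivity) (hg01 n x).1)
      (fun n => mul_le_of_le_one_right (by positivity) (hg01 n x).2) hsum
  refine ⟨fun x => ∑' n : ℕ, (1 / 2 : ℝ) ^ n * g n x, ?_, ?_⟩
  · refine continuous_tsum (fun n => continuous_const.mul (hgc n)) hsum (fun n x => ?_)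
    rw [Real.norm_eq_abs, abs_of_nonneg (mul_nonneg (by positivity) (hg01 n x).1)]
    exact mul_le_of_le_one_right (by positivity) (hg01 n x).2
  · intro x y hxy
    obtain ⟨d, hd, d', hd', hxd, hdd', hd'y⟩ := hsep x y hxy
    have hmem : (d, d') ∈ S := ⟨⟨hd, hd'⟩, hdd'⟩
    rw [hp] at hmem
    obtain ⟨n, hn⟩ := hmem
    refine Summable.tsum_lt_tsum (i := n) (fun k => ?_) ?_ (hsumx x) (hsumx y)
    · exact mul_le_mul_of_nonneg_left (hgm k hxy.le) (by positivity)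
    · have h0 : g n x = 0 := hg0 n x (by rw [hn]; exact hxd)
      have h1 : g n y = 1 := hg1 n y (by rw [hn]; exact hd'y)
      rw [h0, h1]
      simp

/-- Debreu's theorem, in a general form. -/
theorem exists_utility {Y : Type} [TopologicalSpace Y] [Preorder Y]
    (htot : ∀ a b : Y, a ≤ b ∨ b ≤ a) (hL : ∀ x : Y, IsOpen (Iio x)) (hU : ∀ x : Y, IsOpen (Ioi x))
    (𝓑 : Set (Set Y)) (h𝓑 : 𝓑.Countable) (ha : ∀ x y : Y, y < x → ∃ B ∈ 𝓑, y ∈ B ∧ B ⊆ Iio x)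
    (hb : ∀ x y : Y, x < y → ∃ B ∈ 𝓑, y ∈ B ∧ B ⊆ Ioi x) :
    ∃ u : Y → ℝ, Continuous u ∧ ∀ x y, x ≤ y ↔ u x ≤ u y := by
  classical
  have : Std.Total (α := Y) (· ≤ ·) := ⟨htot⟩
  let : LinearOrder (Antisymmetrization Y (· ≤ ·)) := inferInstance
  let : TopologicalSpace (Antisymmetrization Y (· ≤ ·)) := Preorder.topology _
  have : OrderTopology (Antisymmetrization Y (· ≤ ·)) := ⟨rfl⟩
  obtain ⟨D, hD, hsep⟩ := exists_sep htot 𝓑 h𝓑 ha hb
  obtain ⟨u, hu, hmono⟩ := exists_strictMono (toAntisymmetrization (· ≤ ·) '' D : Set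
    (Antisymmetrization Y (· ≤ ·))) (hD.image _) (by
      intro x y hxy
      induction x using Antisymmetrization.ind with
      | _ x =>
      induction y using Antisymmetrization.ind with
      | _ y =>
      obtain ⟨d, hd, d', hd', h1, h2, h3⟩ := hsep x y hxy
      exact ⟨_, ⟨d, hd, rfl⟩, _, ⟨d', hd', rfl⟩, h1, h2, h3⟩)
  refine ⟨fun y => u (toAntisymmetrization (· ≤ ·) y), hu.comp ?_, fun x y => ?_⟩
  · apply continuous_generateFrom_iff.mpr
    rintro s ⟨a, rfl | rfl⟩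
    · induction a using Antisymmetrization.ind with
      | _ a => exact hU a
    · induction a using Antisymmetrization.ind with
      | _ a => exact hL a
  · rw [hmono.le_iff_le]
    rfl

end Pool.Agent.R492.Util
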